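import Pool.Agent.EDX.Stmts1

/-!
# Squad EDX (MP_74088a_nt), row DAT: the shift maps (helper30)
-/

set_option autoImplicit false

namespace Pool.Agent.EDX.H30

open Polynomial Finset Pool.Agent.EDG Pool.Agent.EDX

/-- values at congruent points are congruent -/
theorem sub_dvd_ev (a b : ℤ[X]) (p : ℤ[X][X]) :
    a - b ∣ ev (X : ℤ[X]) a p - ev (X : ℤ[X]) b p := by
  have h1 : ∀ c : ℤ[X], ev (X : ℤ[X]) c p =
      (p.map (eval₂RingHom (Int.castRingHom ℤ[X]) (X : ℤ[X]))).eval c := by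
    intro c
    rw [eval_map]
    rfl
  rw [h1 a, h1 b]
  exact sub_dvd_eval_sub a b _

/-- the value at the rotated index is the value at the next point, modulo `g` -/
theorem rot_dvd {m : ℕ} {g : ℤ[X]} (hg : g ∣ Yp (m + 1) - Yp 0) (i : Fin (m + 1)) (p : ℤ[X][X]) :
    g ∣ ev (X : ℤ[X]) (Yp (finRotate (m + 1) i : Fin (m + 1))) p -
      ev (X : ℤ[X]) (Yp (i + 1)) p := by
  by_cases hi : i = Fin.last m
  · subst hi
    rw [finRotate_last]
    have h1 : ((Fin.last m : Fin (m + 1)) : ℕ) + 1 = m + 1 := by simp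
    rw [h1]
    have h2 : g ∣ Yp 0 - Yp (m + 1) := by
      have := (dvd_neg.mpr hg)
      rwa [neg_sub] at this
    exact h2.trans (sub_dvd_ev _ _ _)
  · have h1 : ((finRotate (m + 1) i : Fin (m + 1)) : ℕ) = i + 1 := by
      have h2 : (i : ℕ) ≠ m := fun hh => hi (Fin.ext (by simpa using hh))
      have h3 : (i : ℕ) < m := by have := i.isLt; omega
      have h4 : i = ⟨(i : ℕ), h3.trans m.lt_succ_self⟩ := rfl
      rw [h4, finRotate_of_lt h3]
    rw [h1, sub_self]
    exact dvd_zero _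

/-- a polynomial of degree `< D` is the polynomial of its coefficients -/
theorem pol_of_coeff {n D : ℕ} (q : Fin n → ℚ[X]) (i : Fin n) (hq : (q i).degree < (D : WithBot ℕ)) :
    pol (fun x : Fin n × Fin D => (q x.1).coeff x.2) i = q i := by
  ext k
  by_cases hk : k < D
  · exact pol_coeff (fun x : Fin n × Fin D => (q x.1).coeff x.2) i ⟨k, hk⟩
  · have hk' : (D : WithBot ℕ) ≤ (k : WithBot ℕ) := by exact_mod_cast not_lt.mp hk
    rw [coeff_eq_zero_of_degree_lt (hq.trans_le hk'),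
      coeff_eq_zero_of_degree_lt ((pol_degree_lt _ i).trans_le hk')]

/-- the polynomials of `be P` -/
noncomputable def bq (m : ℕ) (g : ℤ[X]) (P : Fin (m + 1) × Fin g.natDegree → ℚ) (i : Fin (m + 1)) :
    ℚ[X] :=
  ((Yp ((finRotate (m + 1)).symm i : Fin (m + 1))).map (Int.castRingHom ℚ) *
    pol P ((finRotate (m + 1)).symm i)) %ₘ g.map (Int.castRingHom ℚ)

/-- the map `al` -/
noncomputable def alM (m : ℕ) (g : ℤ[X]) :
    (Fin (m + 1) × Fin g.natDegree → ℚ) →ₗ[ℚ] (Fin (m + 1) × Fin g.natDegree → ℚ) :=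
  LinearMap.funLeft ℚ ℚ fun x => ((finRotate (m + 1)).symm x.1, x.2)

/-- the map `be` -/
noncomputable def beM (m : ℕ) (g : ℤ[X]) :
    (Fin (m + 1) × Fin g.natDegree → ℚ) →ₗ[ℚ] (Fin (m + 1) × Fin g.natDegree → ℚ) where
  toFun P := fun x => (bq m g P x.1).coeff x.2
  map_add' P P' := by
    funext x
    simp only [bq, pol_add, Pi.add_apply, mul_add, add_modByMonic, coeff_add]
  map_smul' a P := by
    funext x
    have h1 : (Yp ((finRotate (m + 1)).symm x.1 : Fin (m + 1))).map (Int.castRingHom ℚ) *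
        pol (a • P) ((finRotate (m + 1)).symm x.1) =
        a • ((Yp ((finRotate (m + 1)).symm x.1 : Fin (m + 1))).map (Int.castRingHom ℚ) *
        pol P ((finRotate (m + 1)).symm x.1)) := by
      rw [pol_smul, smul_eq_C_mul]; ring
    simp only [bq, h1, smul_modByMonic, coeff_smul, Pi.smul_apply, RingHom.id_apply]

theorem pol_al (m : ℕ) (g : ℤ[X]) (P : Fin (m + 1) × Fin g.natDegree → ℚ) (i : Fin (m + 1)) :
    pol (alM m g P) i = pol P ((finRotate (m + 1)).symm i) := rfl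

theorem pol_be (m : ℕ) (g : ℤ[X]) (hg : g.Monic) (P : Fin (m + 1) × Fin g.natDegree → ℚ)
    (i : Fin (m + 1)) : pol (beM m g P) i = bq m g P i := by
  have hgq : (g.map (Int.castRingHom ℚ)).Monic := hg.map _
  refine pol_of_coeff (bq m g P) i ?_
  have h2 := degree_modByMonic_lt
    ((Yp ((finRotate (m + 1)).symm i : Fin (m + 1))).map (Int.castRingHom ℚ) *
      pol P ((finRotate (m + 1)).symm i)) hgq
  rwa [degree_eq_natDegree hgq.ne_zero, hg.natDegree_map] at h2

theorem map_dvd' {g a b : ℤ[X]} (hd : g ∣ a - b) :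
    g.map (Int.castRingHom ℚ) ∣ a.map (Int.castRingHom ℚ) - b.map (Int.castRingHom ℚ) := by
  rw [← Polynomial.map_sub]
  exact Polynomial.map_dvd _ hd

theorem NP_al (m : ℕ) (g : ℤ[X]) (hc : Cyc (m + 1) g) (P : Fin (m + 1) × Fin g.natDegree → ℚ)
    (e : ℕ) : NP ℚ (m + 1) g (alM m g P) e = NP ℚ (m + 1) g P (2 * e) := by
  have hgq : (g.map (Int.castRingHom ℚ)).Monic := hc.monic.map _
  unfold NP
  rw [← Equiv.sum_comp (finRotate (m + 1))]
  refine modByMonic_eq_of_dvd_sub hgq ?_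
  rw [← sum_sub_distrib]
  refine Finset.dvd_sum fun i _ => ?_
  rw [pol_al, Equiv.symm_apply_apply, h_two_mul, ev_comp_F_Yp, ← sub_mul]
  exact (map_dvd' (rot_dvd hc.per i (h e))).mul_right _

theorem NP_be (m : ℕ) (g : ℤ[X]) (hc : Cyc (m + 1) g) (P : Fin (m + 1) × Fin g.natDegree → ℚ)
    (e : ℕ) : NP ℚ (m + 1) g (beM m g P) e = NP ℚ (m + 1) g P (2 * e + 1) := by
  have hgq : (g.map (Int.castRingHom ℚ)).Monic := hc.monic.map _
  unfold NP
  rw [← Equiv.sum_comp (finRotate (m + 1))]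
  refine modByMonic_eq_of_dvd_sub hgq ?_
  rw [← sum_sub_distrib]
  refine Finset.dvd_sum fun i _ => ?_
  rw [pol_be m g hc.monic, bq, Equiv.symm_apply_apply, h_two_mul_add_one, map_mul, ev_X, ev_comp_F_Yp,
    Polynomial.map_mul]
  have h1 : g.map (Int.castRingHom ℚ) ∣
      ((Yp (i : ℕ)).map (Int.castRingHom ℚ) * pol P i) %ₘ g.map (Int.castRingHom ℚ) -
      (Yp (i : ℕ)).map (Int.castRingHom ℚ) * pol P i := by
    have h2 := modByMonic_add_div ((Yp (i : ℕ)).map (Int.castRingHom ℚ) * pol P i)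
      (g.map (Int.castRingHom ℚ))
    refine ⟨-(((Yp (i : ℕ)).map (Int.castRingHom ℚ) * pol P i) /ₘ g.map (Int.castRingHom ℚ)), ?_⟩
    linear_combination h2
  have h3 := map_dvd' (rot_dvd hc.per i (h e))
  have h4 := (h1.mul_left ((ev (X : ℤ[X]) (Yp (finRotate (m + 1) i : Fin (m + 1))) (h e)).map
    (Int.castRingHom ℚ))).add (h3.mul_right ((Yp (i : ℕ)).map (Int.castRingHom ℚ) * pol P i))
  refine h4.trans (dvd_of_eq ?_)
  ring

/-- composition with `FK` as a linear map -/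
noncomputable def cF : KK[X] →ₗ[KK] KK[X] := (aeval FK : KK[X] →ₐ[KK] KK[X]).toLinearMap

theorem cF_apply (f : KK[X]) : cF f = f.comp FK := rfl

theorem dat : DatStmt := by
  intro n g hc
  obtain ⟨m, rfl⟩ : ∃ m, n = m + 1 := ⟨n - 1, by have := hc.npos; omega⟩
  refine ⟨⟨mu (m + 1) g, FK, alM m g, beM m g, FK_monic, FK_natDegree, ?_, ?_⟩, rfl, rfl⟩
  · intro P f
    have h1 : mu (m + 1) g (alM m g P) = (mu (m + 1) g P).comp cF := by
      apply hB.ext
      intro e
      rw [LinearMap.comp_apply, hB_apply, cF_apply, ← hK_two_mul, mu_hK, mu_hK, NP_al m g hc]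
    rw [h1, LinearMap.comp_apply, cF_apply]
  · intro P f
    have h1 : mu (m + 1) g (beM m g P) =
        ((mu (m + 1) g P).comp (LinearMap.mulLeft KK (X : KK[X]))).comp cF := by
      apply hB.ext
      intro e
      rw [LinearMap.comp_apply, LinearMap.comp_apply, hB_apply, cF_apply, LinearMap.mulLeft_apply,
        ← hK_two_mul_add_one, mu_hK, mu_hK, NP_be m g hc]
    rw [h1, LinearMap.comp_apply, LinearMap.comp_apply, cF_apply, LinearMap.mulLeft_apply]

end Pool.Agent.EDX.H30
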