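import Pool.Agent.EDX.Stmts3

/-!
# Squad EDX (MP_74088a_nt), row DSD: distances (helper30)
-/

set_option autoImplicit false

namespace Pool.Agent.EDX.H30

open Polynomial Finset Pool.Agent.EDG Pool.Agent.EDX

theorem xrec (b z : ℂ) (j : ℕ) :
    b + it b z (j + 1) = (b + it b z j) ^ 2 + (b - b ^ 2) := by
  rw [it_succ]; ring

theorem dsd : DsdStmt := by
  intro b y q φ hφ hby l w hw
  obtain ⟨-, hinv, -⟩ := hφ
  obtain ⟨hb, hy⟩ := hby
  obtain ⟨-, hb1⟩ := hb
  have hw' := hinv l w hw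
  have hc : ‖b - b ^ 2‖ ≤ 2 := by
    have h1 := hb1 1
    have h2 : b + it b (-b) 1 = b - b ^ 2 := by
      rw [xrec, it_zero]; ring
    rwa [h2] at h1
  have hw1 : ‖w - 4‖ < 1 := by
    rw [Metric.mem_ball, dist_eq_norm] at hw; exact hw
  have hw5 : ‖w‖ < 5 := by
    have h1 : ‖w‖ ≤ ‖w - 4‖ + ‖(4 : ℂ)‖ := by
      have := norm_add_le (w - 4) 4
      simpa using this
    have h2 : ‖(4 : ℂ)‖ = 4 := by simp
    linarith
  have hw3 : 3 < ‖w‖ := by
    have h1 : ‖(4 : ℂ)‖ ≤ ‖w‖ + ‖w - 4‖ := by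
      have := norm_sub_le w (w - 4)
      have h3 : w - (w - 4) = 4 := by ring
      rwa [h3] at this
    have h2 : ‖(4 : ℂ)‖ = 4 := by simp
    linarith
  set ζ := φ l w with hζ
  have hu : ∀ k ≤ q, ‖b + it b ζ (q - k)‖ ≤ 5 := by
    intro k
    induction k with
    | zero => intro _; rw [Nat.sub_zero, hw']; exact hw5.le
    | succ k ih =>
      intro hk
      have h1 := ih (by omega)
      have h2 : q - k = (q - (k + 1)) + 1 := by omega
      rw [h2, xrec] at h1
      set x := b + it b ζ (q - (k + 1)) with hx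
      have h3 : ‖x‖ ^ 2 ≤ 7 := by
        have h4 : x ^ 2 = (x ^ 2 + (b - b ^ 2)) - (b - b ^ 2) := by ring
        rw [← norm_pow, h4]
        have := norm_sub_le (x ^ 2 + (b - b ^ 2)) (b - b ^ 2)
        linarith
      nlinarith [norm_nonneg x]
  have hu' : ∀ j ≤ q, ‖b + it b ζ j‖ ≤ 5 := by
    intro j hj
    have h1 := hu (q - j) (by omega)
    have h2 : q - (q - j) = j := by omega
    rwa [h2] at h1
  have hv : ∀ j, ‖b + it b y j‖ ≤ 2 := hy
  have hd : ∀ j ≤ q, ‖(b + it b ζ j) - (b + it b y j)‖ ≤ 7 ^ j * ‖ζ - y‖ := by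
    intro j
    induction j with
    | zero =>
      intro _
      rw [it_zero, it_zero]
      have h1 : b + ζ - (b + y) = ζ - y := by ring
      rw [h1]; simp
    | succ j ih =>
      intro hj
      have h1 := ih (by omega)
      have h2 : b + it b ζ (j + 1) - (b + it b y (j + 1)) =
          ((b + it b ζ j) - (b + it b y j)) * ((b + it b ζ j) + (b + it b y j)) := by
        rw [xrec b ζ, xrec b y]; ring
      have h3 : ‖(b + it b ζ j) + (b + it b y j)‖ ≤ 7 := by
        have h4 := norm_add_le (b + it b ζ j) (b + it b y j)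
        have h5 := hu' j (by omega)
        have h6 := hv j
        linarith
      rw [h2, norm_mul, pow_succ]
      calc ‖(b + it b ζ j) - (b + it b y j)‖ * ‖(b + it b ζ j) + (b + it b y j)‖
          ≤ (7 ^ j * ‖ζ - y‖) * 7 := by
            apply mul_le_mul h1 h3 (norm_nonneg _)
            positivity
        _ = 7 ^ j * 7 * ‖ζ - y‖ := by ring
  constructor
  · have h1 := hd q le_rfl
    rw [hw'] at h1
    have h2 : ‖w‖ ≤ ‖w - (b + it b y q)‖ + ‖b + it b y q‖ := by
      have := norm_add_le (w - (b + it b y q)) (b + it b y q)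
      simpa using this
    have h3 := hv q
    have h4 : (1 : ℝ) ≤ 7 ^ q * ‖ζ - y‖ := by linarith
    have h5 : (0 : ℝ) < 7 ^ q := by positivity
    rw [div_le_iff₀ h5]
    linarith
  · have h1 := hu' 0 (Nat.zero_le _)
    have h2 := hv 0
    rw [it_zero] at h1 h2
    have h3 : ζ - y = (b + ζ) - (b + y) := by ring
    rw [h3]
    have h4 := norm_sub_le (b + ζ) (b + y)
    linarith

end Pool.Agent.EDX.H30
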