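import Pool.Agent.EDX.Stmts2

/-!
# Squad EDX, row TAD: points with a large determinant
-/

set_option autoImplicit false

namespace Pool.Agent.EDX.H30

open Polynomial Finset Pool.Agent.EDG Pool.Agent.EDX Module

/-- the value at a root of `g` of a vector `vec` -/
theorem value_eq {n : ℕ} {g : ℤ[X]} (hg : Cyc n g) (b : ℂ) (hb : aeval b g = 0) (s e : ℕ)
    (i : Fin n) :
    (2 * b) ^ s * ev b (it b (-b) (i : ℕ)) (h e) =
      ∑ j : Fin g.natDegree, b ^ (j : ℕ) * ((vec n g s e (i, j) : ℤ) : ℂ) := by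
  set p : ℤ[X] := (2 * X) ^ s * ev (X : ℤ[X]) (Yp i) (h e) with hp
  have h1 : aeval b p = (2 * b) ^ s * ev b (it b (-b) (i : ℕ)) (h e) := by
    rw [hp, map_mul, map_pow, map_mul, aeval_X, aeval_ev, aeval_Yp, map_ofNat]
  have h2 : aeval b p = aeval b (p %ₘ g) := by
    conv_lhs => rw [← modByMonic_add_div p g]
    rw [map_add, map_mul, hb, zero_mul, add_zero]
  have hg1 : g ≠ 1 := by
    intro h0
    exact hg.irr.not_isUnit (by rw [h0]; exact isUnit_one)
  have h3 : (p %ₘ g).natDegree < g.natDegree := natDegree_modByMonic_lt p hg.monic hg1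
  rw [← h1, h2, aeval_eq_sum_range' h3, Finset.sum_range]
  apply sum_congr rfl
  intro j _
  rw [zsmul_eq_mul, mul_comm]
  rfl

theorem tad (hBas : BasStmt) (hCls : ClsStmt) (hIdx : IdxStmt) (hVan : VanStmt) : TadStmt := by
  classical
  intro n g hg q k hq hk
  obtain ⟨β, _, hroot, hdetV⟩ := hVan n g hg
  obtain ⟨σ, hσinj, hσr, hσdet, hσcard⟩ := hBas n g hg q k hq hk
  refine ⟨β, σ, hroot, hσinj, hσr, hσcard, ?_⟩
  set M : Matrix (Fin n × Fin g.natDegree) (Fin n × Fin g.natDegree) ℤ :=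
    Matrix.of fun x y => vec n g (σ y).1 (σ y).2 x with hM
  -- the index
  have hsub : {w : Fin n × Fin g.natDegree → ZMod (2 ^ n) |
      ∃ a : Fin n × Fin g.natDegree → ℤ, ∀ x, w x = ((M.mulVec a x : ℤ) : ZMod (2 ^ n))} ⊆
      {w : Fin n × Fin g.natDegree → ZMod (2 ^ n) | ∃ (a : ℕ → ℕ → ℤ) (B : ℕ), ∀ x,
      w x = ((∑ s ∈ range B, ∑ e ∈ range B, a s e * vec n g s e x : ℤ) : ZMod (2 ^ n))} := by
    rintro w ⟨a, ha⟩
    refine ⟨fun s e => ∑ y, if σ y = (s, e) then a y else 0, n + 2 ^ k, fun x => ?_⟩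
    rw [ha x]
    congr 1
    have h1 : ∀ s e : ℕ, (∑ y, if σ y = (s, e) then a y else 0) * vec n g s e x =
        ∑ y, if σ y = (s, e) then a y * vec n g (σ y).1 (σ y).2 x else 0 := by
      intro s e
      rw [sum_mul]
      apply sum_congr rfl
      intro y _
      by_cases hy : σ y = (s, e)
      · rw [if_pos hy, if_pos hy, hy]
      · rw [if_neg hy, if_neg hy, zero_mul]
    simp_rw [h1]
    rw [← sum_product' (range (n + 2 ^ k)) (range (n + 2 ^ k)) (fun s e => ∑ y, if σ y = (s, e) then a y * vec n g (σ y).1 (σ y).2 x else 0),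
      sum_comm]
    simp only [Matrix.mulVec, dotProduct, hM, Matrix.of_apply]
    apply sum_congr rfl
    intro y _
    rw [Finset.sum_eq_single (σ y)]
    · simp [mul_comm]
    · intro p _ hp
      rw [if_neg]
      intro h2
      exact hp (by rw [h2])
    · intro h2
      exfalso
      apply h2
      rw [mem_product, mem_range, mem_range]
      have := hσr y
      omega
  have hne : NeZero (2 ^ n) := ⟨by positivity⟩
  have hcard := (Set.ncard_le_ncard hsub (Set.toFinite _)).trans (hCls n g hg)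
  have hidx := hIdx (Fin n × Fin g.natDegree) M n _ hσdet hcard
  rw [Fintype.card_prod, Fintype.card_fin, Fintype.card_fin] at hidx
  have hexp : n * (n * g.natDegree) =
      g.natDegree * (n * (n + 1) / 2) + g.natDegree * (n * (n - 1) / 2) := by
    have h1 : n * (n + 1) / 2 + n * (n - 1) / 2 = n * n := by
      rcases n with _ | m
      · rfl
      · have e1 : 2 ∣ (m + 1) * (m + 1 + 1) := (Nat.even_mul_succ_self (m + 1)).two_dvd
        have e2 : 2 ∣ (m + 1) * (m + 1 - 1) := by
          rw [Nat.add_sub_cancel, mul_comm]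
          exact (Nat.even_mul_succ_self m).two_dvd
        rw [← Nat.add_div_of_dvd_right e1]
        apply Nat.div_eq_of_eq_mul_right two_pos
        rw [Nat.add_sub_cancel]
        ring
    rw [← mul_add, h1]
    ring
  rw [hexp, pow_add] at hidx
  have hM1 : 2 ^ (g.natDegree * (n * (n - 1) / 2)) ≤ M.det.natAbs :=
    Nat.le_of_mul_le_mul_left hidx (by positivity)
  -- the matrix of values
  have hA : (Matrix.of fun x y : Fin n × Fin g.natDegree => (2 * β x.2) ^ (σ y).1 *
      ev (β x.2) (it (β x.2) (-β x.2) (x.1 : ℕ)) (h (σ y).2)) =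
      (Matrix.kroneckerMap (· * ·) (1 : Matrix (Fin n) (Fin n) ℂ) (Matrix.vandermonde β)) *
        M.map (Int.castRingHom ℂ) := by
    ext x y
    rw [Matrix.mul_apply, Matrix.of_apply, value_eq hg (β x.2) (hroot x.2) (σ y).1 (σ y).2 x.1,
      Fintype.sum_prod_type, Finset.sum_eq_single x.1]
    · apply sum_congr rfl
      intro j _
      simp [Matrix.kroneckerMap_apply, Matrix.vandermonde_apply, hM]
    · intro i _ hi
      apply sum_eq_zero
      intro j _
      rw [Matrix.kroneckerMap_apply, Matrix.one_apply_ne hi.symm]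
      simp
    · intro hi
      exact absurd (mem_univ _) hi
  rw [hA, Matrix.det_mul]
  have hdetK : (Matrix.kroneckerMap (· * ·) (1 : Matrix (Fin n) (Fin n) ℂ)
      (Matrix.vandermonde β)).det = (Matrix.vandermonde β).det ^ n := by
    have := Matrix.det_kronecker (1 : Matrix (Fin n) (Fin n) ℂ) (Matrix.vandermonde β)
    rw [Matrix.det_one, one_pow, one_mul, Fintype.card_fin] at this
    exact this
  have hdetM : (M.map (Int.castRingHom ℂ)).det = ((M.det : ℤ) : ℂ) := by
    have := (Int.castRingHom ℂ).map_det M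
    rw [RingHom.mapMatrix_apply] at this
    rw [← this]
    rfl
  rw [hdetK, hdetM, norm_mul, norm_pow, Complex.norm_intCast]
  have h4 : (2 : ℝ) ^ (g.natDegree * (n * (n - 1) / 2)) ≤ |((M.det : ℤ) : ℝ)| := by
    rw [← Int.cast_abs, Int.abs_eq_natAbs]
    exact_mod_cast hM1
  have h5 : 1 ≤ ‖(Matrix.vandermonde β).det‖ ^ n := one_le_pow₀ hdetV
  calc (2 : ℝ) ^ (g.natDegree * (n * (n - 1) / 2)) ≤ |((M.det : ℤ) : ℝ)| := h4
    _ = 1 * |((M.det : ℤ) : ℝ)| := (one_mul _).symm
    _ ≤ _ := mul_le_mul_of_nonneg_right h5 (abs_nonneg _)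

end Pool.Agent.EDX.H30
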